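import Pool.Agent.Run7.h472.OH.Iface

/-!
# FEW: the recursion when there are few bad blocks (project OH of helper472)
-/

set_option autoImplicit false
open MeasureTheory ProbabilityTheory Filter Set
open scoped ENNReal Pointwise Topology

namespace Pool.Agent.Run7.h704.OH

open Pool.Agent.N662.FP Pool.Agent.Run7.h472.OH

/-- the blocks of norm at most `ρ` -/
noncomputable def Rb (ρ : ℕ) : Finset (ℤ × ℤ) := Finset.Icc (-(ρ : ℤ)) ρ ×ˢ Finset.Icc (-(ρ : ℤ)) ρ

lemma mem_Rb {ρ : ℕ} {b : ℤ × ℤ} : b ∈ Rb ρ ↔ nm b ≤ ρ := by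
  unfold Rb nm
  rw [Finset.mem_product, Finset.mem_Icc, Finset.mem_Icc]
  omega

lemma card_Rb (ρ : ℕ) : (Rb ρ).card = (2 * ρ + 1) ^ 2 := by
  unfold Rb
  rw [Finset.card_product, Int.card_Icc]
  have : ((ρ : ℤ) + 1 - -(ρ : ℤ)).toNat = 2 * ρ + 1 := by omega
  rw [this, sq]

/-- the bad blocks in the set `A` -/
noncomputable def bad (μ : Seminorm ℝ (ℝ × ℝ)) (L n : ℕ) (g : ℝ) (x : Env) (A : Finset (ℤ × ℤ)) :
    Finset (ℤ × ℤ) := by
  classical
  exact A.filter fun b => g < W μ L n b x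

lemma mem_bad {μ : Seminorm ℝ (ℝ × ℝ)} {L n : ℕ} {g : ℝ} {x : Env} {A : Finset (ℤ × ℤ)} {b : ℤ × ℤ} :
    b ∈ bad μ L n g x A ↔ b ∈ A ∧ g < W μ L n b x := by
  unfold bad
  exact Finset.mem_filter

lemma mem_badSet {μ : Seminorm ℝ (ℝ × ℝ)} {L n : ℕ} {g : ℝ} {x : Env} {q : ℕ → ℤ × ℤ} {k : ℕ}
    {b : ℤ × ℤ} : b ∈ badSet μ L n g x q k ↔ (∃ i ≤ k, q i = b) ∧ g < W μ L n b x := by
  unfold badSet
  rw [Finset.mem_filter, Finset.mem_image]
  simp only [Finset.mem_range, Nat.lt_succ_iff]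

lemma nm_tri (a b : ℤ × ℤ) : nm a ≤ nm b + nm (a - b) := by
  unfold nm
  simp only [Prod.fst_sub, Prod.snd_sub]
  omega

theorem det_step (hD : S_DET) {μ : Seminorm ℝ (ℝ × ℝ)} {c C : ℝ} {L : ℕ}
    (hc : Cst μ c C L) {n N : ℕ} (hn : 1 ≤ n) {g u : ℝ} {j ρ : ℕ} (hj : 1 ≤ j)
    (hg0 : 0 ≤ g) (hg : g ≤ c * n / 2) (hu : 0 < u)
    (hK : (1 + 2 * (C * (L + 1) * N) / (c * n)) * g ≤ u / 2)
    (hρ : (N : ℝ) / n + (1 + 2 * (C * (L + 1) * N) / (c * n)) + j + 1 ≤ ρ) (x : Env)
    (hx : u < W μ L N 0 x) :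
    j ≤ (bad μ L n g x (Rb ρ)).card ∨ ∃ b ∈ Rb ρ, u / (4 * j) < W μ L n b x := by
  by_contra hcon
  push Not at hcon
  obtain ⟨hbad, hsm⟩ := hcon
  have hne : Nonempty {q : Sq // Val L N 0 q} := by
    by_contra h
    rw [not_nonempty_iff] at h
    have : W μ L N 0 x = 0 := by unfold W; exact Real.iSup_of_isEmpty _
    linarith
  obtain ⟨⟨⟨m, q⟩, hq⟩, hqu⟩ := exists_lt_of_lt_ciSup (by unfold W at hx; exact hx)
  have hqu' : u < μ (em (q (Fin.last m) - q 0)) - tmS x ⟨m, q⟩ := hqu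
  set p : ℕ → ℤ × ℤ := fun i => q ⟨min i m, by omega⟩ with hp
  have hpi : ∀ i (hi : i ≤ m), p i = q ⟨i, by omega⟩ := by
    intro i hi
    simp only [hp]
    congr 1
    exact Fin.ext (by simp [hi])
  have hpm : p m = q (Fin.last m) := hpi m le_rfl
  have hp0 : p 0 = q 0 := hpi 0 (Nat.zero_le _)
  have hP : IsP p m := by
    intro i hi
    have := hq.step ⟨i, hi⟩
    rw [hpi (i + 1) hi, hpi i hi.le]
    exact this
  have htm : tm x p 0 m = tmS x ⟨m, q⟩ := by
    unfold tm tmS
    rw [← Finset.range_eq_Ico, Finset.sum_range]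
    refine Finset.sum_congr rfl fun i _ => ?_
    rw [hpi i.1 i.2.le, hpi (i.1 + 1) i.2]
    rfl
  rw [← htm, ← hpm, ← hp0] at hqu'
  have hT0 : 0 ≤ tm x p 0 m := Finset.sum_nonneg fun i _ => le_max_right _ _
  -- coordinates of `p 0` and `p m`
  have hNb : ∀ a : ℤ, a / (N : ℤ) = 0 → 1 ≤ N → 0 ≤ a ∧ a < N := by
    intro a ha h1
    have h2 : (0 : ℤ) < N := by exact_mod_cast h1
    have h3 := Int.emod_nonneg a h2.ne'
    have h4 := Int.emod_lt_of_pos a h2
    have h5 := Int.mul_ediv_add_emod a N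
    rw [ha, mul_zero, zero_add] at h5
    omega
  have hn0 : (0 : ℝ) < n := by exact_mod_cast hn
  have hcn : 0 < c * n := mul_pos hc.c_pos hn0
  have hN : 1 ≤ N := by
    by_contra h
    have h0 : N = 0 := by omega
    subst h0
    -- all vertices of a valid sequence are equal to `0`
    have e1 := (hq.inR (Fin.last m)).1
    have e2 := (hq.inR (Fin.last m)).2
    have e3 := (hq.inR 0).1
    have e4 := (hq.inR 0).2
    simp only [Nat.cast_zero, zero_mul, mul_zero, sub_zero, abs_nonpos_iff] at e1 e2 e3 e4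
    have : p m - p 0 = 0 := by
      rw [hpm, hp0]
      exact Prod.ext (by simp [e1, e3]) (by simp [e2, e4])
    rw [this] at hqu'
    have he : Pool.Agent.N662.FP.em (0 : ℤ × ℤ) = 0 := by
      simp [Pool.Agent.N662.FP.em]
    rw [he, map_zero] at hqu'
    linarith
  have hs1 : blk N (p 0) = 0 := by rw [hp0]; exact hq.start
  have hb1 := hNb (p 0).1 (congrArg Prod.fst hs1) hN
  have hb2 := hNb (p 0).2 (congrArg Prod.snd hs1) hN
  have hr := hq.inR (Fin.last m)
  have hr' : InR L N 0 (p m) := by rw [hpm]; exact hr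
  have hnm : nm (p m - p 0) ≤ (L + 1) * N := by
    obtain ⟨r1, r2⟩ := hr'
    simp only [Prod.fst_zero, Prod.snd_zero, mul_zero, sub_zero] at r1 r2
    have e : (((L + 1) * N : ℕ) : ℤ) = (L : ℤ) * N + N := by push_cast; ring
    rw [abs_le] at r1 r2
    unfold nm
    simp only [Prod.fst_sub, Prod.snd_sub]
    omega
  have hμ : μ (em (p m - p 0)) ≤ C * (L + 1) * N := by
    refine (hc.hi _).trans ?_
    rw [mul_assoc]
    refine mul_le_mul_of_nonneg_left ?_ hc.C_pos.le
    exact_mod_cast hnm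
  have hTC : tm x p 0 m ≤ C * (L + 1) * N := by linarith
  set K : ℝ := 1 + 2 * (C * (L + 1) * N) / (c * n) with hKdef
  have hTK : 1 + 2 * tm x p 0 m / (c * n) ≤ K := by
    rw [hKdef]
    have : 2 * tm x p 0 m / (c * n) ≤ 2 * (C * (L + 1) * N) / (c * n) :=
      div_le_div_of_nonneg_right (by linarith) hcn.le
    linarith
  obtain ⟨k, q', hq0, hst, hcard, hdef⟩ := hD μ c C L hc n hn g hg0 hg x m p hP
  have hq0nm : (nm (q' 0) : ℝ) ≤ (N : ℝ) / n := by
    rw [hq0, le_div_iff₀ hn0]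
    have hn1 : (0 : ℤ) < n := by exact_mod_cast hn
    have aux : ∀ a : ℤ, 0 ≤ a → a < N → (a / (n : ℤ)).natAbs * n ≤ N := by
      intro a h1 h2
      have h3 := Int.ediv_nonneg h1 hn1.le
      have h4 := Int.ediv_mul_le a hn1.ne'
      have h5 : (((a / (n : ℤ)).natAbs : ℕ) : ℤ) = a / (n : ℤ) := Int.natAbs_of_nonneg h3
      have h6 : (((a / (n : ℤ)).natAbs * n : ℕ) : ℤ) ≤ (N : ℤ) := by
        push_cast
        rw [abs_of_nonneg h3]
        linarith
      exact_mod_cast h6
    have h1 := aux _ hb1.1 hb1.2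
    have h2 := aux _ hb2.1 hb2.2
    have h3 : nm (blk n (p 0)) * n ≤ N := by
      unfold nm blk
      simp only
      rcases le_total ((p 0).1 / (n : ℤ)).natAbs ((p 0).2 / (n : ℤ)).natAbs with h | h
      · rw [max_eq_right h]; exact h2
      · rw [max_eq_left h]; exact h1
    exact_mod_cast h3
  have hqi : ∀ i ≤ k, (nm (q' i) : ℝ) ≤ (N : ℝ) / n + i := by
    intro i
    induction i with
    | zero => intro _; simpa using hq0nm
    | succ i ih =>
      intro hi
      have h1 := ih (by omega)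
      have h2 := hst i (by omega)
      have h3 := nm_tri (q' (i + 1)) (q' i)
      have h4 : nm (q' (i + 1)) ≤ nm (q' i) + 1 := by omega
      have h5 : (nm (q' (i + 1)) : ℝ) ≤ nm (q' i) + 1 := by exact_mod_cast h4
      push_cast
      linarith
  have hsub : ∀ k' ≤ k, (N : ℝ) / n + k' ≤ ρ →
      badSet μ L n g x q' k' ⊆ bad μ L n g x (Rb ρ) := by
    intro k' hk' hle b hb
    rw [mem_badSet] at hb
    obtain ⟨⟨i, hi, rfl⟩, hbg⟩ := hb
    rw [mem_bad, mem_Rb]
    refine ⟨?_, hbg⟩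
    have h1 := hqi i (hi.trans hk')
    have h2 : (i : ℝ) ≤ k' := by exact_mod_cast hi
    have h3 : (nm (q' i) : ℝ) ≤ ρ := by linarith
    exact_mod_cast h3
  have hj0 : (0 : ℝ) < j := by exact_mod_cast hj
  by_cases hk : (k : ℝ) + 1 ≤ K + j
  · have hs := hsub k le_rfl (by linarith)
    have hc1 : (badSet μ L n g x q' k).card < j := lt_of_le_of_lt (Finset.card_le_card hs) hbad
    have hsum : ∑ b ∈ badSet μ L n g x q' k, W μ L n b x ≤ u / 4 := by
      have h1 : ∑ b ∈ badSet μ L n g x q' k, W μ L n b x ≤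
          (badSet μ L n g x q' k).card • (u / (4 * j)) := by
        refine Finset.sum_le_card_nsmul _ _ _ fun b hb => ?_
        exact hsm b (mem_bad.mp (hs hb)).1
      rw [nsmul_eq_mul] at h1
      have h2 : ((badSet μ L n g x q' k).card : ℝ) * (u / (4 * j)) ≤ j * (u / (4 * j)) := by
        refine mul_le_mul_of_nonneg_right ?_ (by positivity)
        exact_mod_cast hc1.le
      have h3 : (j : ℝ) * (u / (4 * j)) = u / 4 := by
        field_simp
      linarith
    have h4 : (1 + 2 * tm x p 0 m / (c * n)) * g ≤ K * g := mul_le_mul_of_nonneg_right hTK hg0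
    linarith
  · push Not at hk
    have hKj : 0 ≤ K + j := by
      have : 0 ≤ 2 * (C * (L + 1) * N) / (c * n) := by
        have := hc.C_pos
        positivity
      rw [hKdef]
      positivity
    set k' : ℕ := ⌊K + j⌋₊ with hk'
    have f1 : (k' : ℝ) ≤ K + j := Nat.floor_le hKj
    have f2 : K + j < k' + 1 := Nat.lt_floor_add_one _
    have f3 : k' ≤ k := by
      have : (k' : ℝ) < k + 1 := by linarith
      have : k' < k + 1 := by exact_mod_cast this
      omega
    have h1 := hcard k' f3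
    have hs := hsub k' f3 (by linarith)
    have h2 : (j : ℝ) < (badSet μ L n g x q' k').card := by linarith
    have h3 : j < (badSet μ L n g x q' k').card := by exact_mod_cast h2
    have h4 := Finset.card_le_card hs
    omega

section prob

variable {Ω : Type} [MeasureSpace Ω] [IsProbabilityMeasure (volume : Measure Ω)]
  {X : Sym2 (ℤ × ℤ) → Ω → ℝ}

omit [IsProbabilityMeasure (volume : Measure Ω)] in
lemma meas_env (hX : Iid X) : Measurable (env X) := measurable_pi_lambda _ fun e => hX.meas e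

lemma meas_W (hM : S_MEAS) (hX : Iid X) {μ : Seminorm ℝ (ℝ × ℝ)} {c C : ℝ} {L : ℕ}
    (hc : Cst μ c C L) {n : ℕ} (hn : 1 ≤ n) (b : ℤ × ℤ) :
    Measurable fun ω => W μ L n b (env X ω) :=
  (hM μ c C L hc n hn b).comp (meas_env hX)

lemma stat (hM : S_MEAS) (hI : S_IND) (hX : Iid X) {μ : Seminorm ℝ (ℝ × ℝ)} {c C : ℝ} {L : ℕ}
    (hc : Cst μ c C L) {n : ℕ} (hn : 1 ≤ n) (b : ℤ × ℤ) (v : ℝ) :
    (volume : Measure Ω) {ω | v < W μ L n b (env X ω)} =
      (volume : Measure Ω) {ω | v < W μ L n 0 (env X ω)} := by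
  have h := hI Ω X hX μ c C L hc n hn ((Ioi v).indicator 1)
    (measurable_one.indicator measurableSet_Ioi) {b} (by
      intro a ha a' ha' hne
      rw [Finset.mem_singleton] at ha ha'
      exact absurd (ha.trans ha'.symm) hne)
  simp only [Finset.prod_singleton, Finset.card_singleton, pow_one] at h
  have key : ∀ b' : ℤ × ℤ, ∫⁻ ω, (Ioi v).indicator 1 (W μ L n b' (env X ω)) ∂(volume : Measure Ω) =
      (volume : Measure Ω) {ω | v < W μ L n b' (env X ω)} := by
    intro b'
    have hm : MeasurableSet {ω | v < W μ L n b' (env X ω)} :=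
      measurableSet_lt measurable_const (meas_W hM hX hc hn b')
    rw [← lintegral_indicator_one hm]
    rfl
  rw [key, key] at h
  exact h

/-- Markov for the number of bad blocks in a separated family -/
lemma markov (hM : S_MEAS) (hI : S_IND) (hX : Iid X) {μ : Seminorm ℝ (ℝ × ℝ)} {c C : ℝ} {L : ℕ}
    (hc : Cst μ c C L) {n : ℕ} (hn : 1 ≤ n) {g p : ℝ} {Q : ℕ} (hp : 0 < p) (hQ : 1 ≤ Q)
    (hG : G X μ L n g ≤ p) (hQp : (Q : ℝ) * p ≤ 1) {A : Finset (ℤ × ℤ)} (hA : A.card ≤ Q)
    (hsep : ∀ b ∈ A, ∀ b' ∈ A, b ≠ b' → 2 * L + 1 ≤ nm (b - b')) {a : ℝ} (_ha : 0 ≤ a) :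
    (volume : Measure Ω).real {ω | a ≤ ((bad μ L n g (env X ω) A).card : ℝ)} ≤
      3 * ((Q : ℝ) * p) ^ a := by
  have hQ0 : (0 : ℝ) < Q := by exact_mod_cast hQ
  set θ : ℝ := (Q : ℝ) * p with hθ
  have hθ0 : 0 < θ := mul_pos hQ0 hp
  set s : ℝ := θ⁻¹ with hs
  have hs1 : 1 ≤ s := (one_le_inv₀ hθ0).mpr hQp
  have hs0 : 0 < s := by linarith
  set f : ℝ → ℝ≥0∞ := fun w => if g < w then ENNReal.ofReal s else 1 with hf
  have hfm : Measurable f := Measurable.ite measurableSet_Ioi measurable_const measurable_const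
  have hprod : ∀ ω, ∏ b ∈ A, f (W μ L n b (env X ω)) =
      ENNReal.ofReal (s ^ ((bad μ L n g (env X ω) A).card : ℝ)) := by
    intro ω
    rw [Real.rpow_natCast, ENNReal.ofReal_pow hs0.le]
    simp only [hf]
    classical
    rw [Finset.prod_ite, Finset.prod_const, Finset.prod_const_one, mul_one]
    unfold bad
    congr!
  have hlin := hI Ω X hX μ c C L hc n hn f hfm A hsep
  -- the integral of `f`
  have hint : ∫⁻ ω, f (W μ L n 0 (env X ω)) ∂(volume : Measure Ω) ≤
      ENNReal.ofReal (1 + 1 / (Q : ℝ)) := by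
    have hm : MeasurableSet {ω | g < W μ L n 0 (env X ω)} :=
      measurableSet_lt measurable_const (meas_W hM hX hc hn 0)
    calc ∫⁻ ω, f (W μ L n 0 (env X ω)) ∂(volume : Measure Ω) ≤
        ∫⁻ ω, (1 + ENNReal.ofReal s * {ω | g < W μ L n 0 (env X ω)}.indicator 1 ω)
          ∂(volume : Measure Ω) := by
          refine lintegral_mono fun ω => ?_
          simp only [hf]
          by_cases h : g < W μ L n 0 (env X ω)
          · rw [if_pos h, indicator_of_mem (by exact h), Pi.one_apply, mul_one]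
            exact le_add_self
          · rw [if_neg h]
            exact le_self_add
      _ = 1 + ENNReal.ofReal s * (volume : Measure Ω) {ω | g < W μ L n 0 (env X ω)} := by
          rw [lintegral_add_left measurable_const, lintegral_const_mul _
            (measurable_one.indicator hm), lintegral_indicator_one hm, lintegral_const,
            measure_univ, mul_one]
      _ ≤ 1 + ENNReal.ofReal s * ENNReal.ofReal p := by
          gcongr
          rw [← ofReal_measureReal]
          exact ENNReal.ofReal_le_ofReal hG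
      _ = ENNReal.ofReal (1 + 1 / (Q : ℝ)) := by
          rw [← ENNReal.ofReal_mul hs0.le, ← ENNReal.ofReal_one,
            ← ENNReal.ofReal_add zero_le_one (by positivity)]
          congr 2
          rw [hs, hθ]
          field_simp
  have hpow : (∫⁻ ω, f (W μ L n 0 (env X ω)) ∂(volume : Measure Ω)) ^ A.card ≤
      ENNReal.ofReal 3 := by
    calc (∫⁻ ω, f (W μ L n 0 (env X ω)) ∂(volume : Measure Ω)) ^ A.card ≤
        (ENNReal.ofReal (1 + 1 / (Q : ℝ))) ^ A.card := by gcongr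
      _ ≤ (ENNReal.ofReal (1 + 1 / (Q : ℝ))) ^ Q := by
          refine pow_le_pow_right₀ ?_ hA
          rw [← ENNReal.ofReal_one]
          refine ENNReal.ofReal_le_ofReal ?_
          have : 0 ≤ 1 / (Q : ℝ) := by positivity
          linarith
      _ = ENNReal.ofReal ((1 + 1 / (Q : ℝ)) ^ Q) := by
          rw [ENNReal.ofReal_pow (by positivity)]
      _ ≤ ENNReal.ofReal 3 := by
          refine ENNReal.ofReal_le_ofReal ?_
          have h1 : 1 + 1 / (Q : ℝ) ≤ Real.exp (1 / (Q : ℝ)) := by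
            have := Real.add_one_le_exp (1 / (Q : ℝ))
            linarith
          have h2 : (1 + 1 / (Q : ℝ)) ^ Q ≤ Real.exp (1 / (Q : ℝ)) ^ Q :=
            pow_le_pow_left₀ (by positivity) h1 Q
          have h3 : Real.exp (1 / (Q : ℝ)) ^ Q = Real.exp 1 := by
            rw [← Real.exp_nat_mul]
            congr 1
            field_simp
          have h4 := Real.exp_one_lt_d9
          linarith
  have hε : ENNReal.ofReal (s ^ a) ≠ 0 := by
    rw [Ne, ENNReal.ofReal_eq_zero, not_le]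
    exact Real.rpow_pos_of_pos hs0 a
  have hmk := meas_ge_le_lintegral_div (μ := (volume : Measure Ω))
    (f := fun ω => ∏ b ∈ A, f (W μ L n b (env X ω)))
    (Finset.measurable_prod A fun b _ => hfm.comp (meas_W hM hX hc hn b)).aemeasurable hε
    ENNReal.ofReal_ne_top
  have hsubs : {ω | a ≤ ((bad μ L n g (env X ω) A).card : ℝ)} ⊆
      {ω | ENNReal.ofReal (s ^ a) ≤ ∏ b ∈ A, f (W μ L n b (env X ω))} := by
    intro ω hω
    show ENNReal.ofReal (s ^ a) ≤ ∏ b ∈ A, f (W μ L n b (env X ω))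
    rw [hprod]
    exact ENNReal.ofReal_le_ofReal (Real.rpow_le_rpow_of_exponent_le hs1 hω)
  have hfin : (volume : Measure Ω) {ω | a ≤ ((bad μ L n g (env X ω) A).card : ℝ)} ≤
      ENNReal.ofReal (3 * θ ^ a) := by
    calc (volume : Measure Ω) {ω | a ≤ ((bad μ L n g (env X ω) A).card : ℝ)} ≤ _ :=
          (measure_mono hsubs).trans hmk
      _ ≤ ENNReal.ofReal 3 / ENNReal.ofReal (s ^ a) := by
          rw [hlin]
          gcongr
      _ = ENNReal.ofReal (3 * θ ^ a) := by
          rw [← ENNReal.ofReal_div_of_pos (Real.rpow_pos_of_pos hs0 a)]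
          congr 1
          rw [hs, Real.inv_rpow hθ0.le, div_inv_eq_mul]
  unfold Measure.real
  exact ENNReal.toReal_le_of_le_ofReal (by positivity) hfin

end prob

theorem t_FEW (_hW : S_WBD) (hD : S_DET) (hM : S_MEAS) (hI : S_IND) : S_FEW := by
  intro Ω _ _ X hX μ c C L hc n N hn _hN g u p j ρ hj hg0 hg hu hp hG hρp hK hρ
  set M : ℕ := 2 * L + 1 with hMdef
  have hM0 : (0 : ℤ) < M := by omega
  set Q : ℕ := (2 * ρ + 1) ^ 2 with hQdef
  have hQ1 : 1 ≤ Q := Nat.one_le_iff_ne_zero.mpr (by positivity)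
  have hQr : (Q : ℝ) = (2 * (ρ : ℝ) + 1) ^ 2 := by rw [hQdef]; push_cast; ring
  have hMr : (M : ℝ) = 2 * (L : ℝ) + 1 := by rw [hMdef]; push_cast; ring
  -- residue classes
  set cls : ℤ × ℤ → ℕ × ℕ := fun b => ((b.1 % M).toNat, (b.2 % M).toNat) with hcls
  set t : Finset (ℕ × ℕ) := Finset.range M ×ˢ Finset.range M with ht
  have htc : t.card = M ^ 2 := by rw [ht, Finset.card_product, Finset.card_range, sq]
  have hmaps : ∀ b : ℤ × ℤ, cls b ∈ t := by
    intro b
    rw [ht, Finset.mem_product, Finset.mem_range, Finset.mem_range]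
    have h1 := Int.emod_nonneg b.1 hM0.ne'
    have h2 := Int.emod_lt_of_pos b.1 hM0
    have h3 := Int.emod_nonneg b.2 hM0.ne'
    have h4 := Int.emod_lt_of_pos b.2 hM0
    simp only [hcls]
    omega
  have hsep : ∀ r : ℕ × ℕ, ∀ b ∈ (Rb ρ).filter (fun b => cls b = r),
      ∀ b' ∈ (Rb ρ).filter (fun b => cls b = r), b ≠ b' → 2 * L + 1 ≤ nm (b - b') := by
    intro r b hb b' hb' hne
    rw [Finset.mem_filter] at hb hb'
    have e := hb.2.trans hb'.2.symm
    simp only [hcls, Prod.mk.injEq] at e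
    have h1 := Int.emod_nonneg b.1 hM0.ne'
    have h3 := Int.emod_nonneg b.2 hM0.ne'
    have h1' := Int.emod_nonneg b'.1 hM0.ne'
    have h3' := Int.emod_nonneg b'.2 hM0.ne'
    have g1 : b.1 % M = b'.1 % M := by omega
    have g2 : b.2 % M = b'.2 % M := by omega
    have d1 : (M : ℤ) ∣ b.1 - b'.1 := Int.ModEq.dvd (show b'.1 % M = b.1 % M from g1.symm)
    have d2 : (M : ℤ) ∣ b.2 - b'.2 := Int.ModEq.dvd (show b'.2 % M = b.2 % M from g2.symm)
    have : b.1 - b'.1 ≠ 0 ∨ b.2 - b'.2 ≠ 0 := by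
      by_contra hh
      push Not at hh
      exact hne (Prod.ext (by omega) (by omega))
    unfold nm
    simp only [Prod.fst_sub, Prod.snd_sub]
    rcases this with h | h
    · refine le_max_of_le_left ?_
      have h5 := Int.natAbs_le_of_dvd_ne_zero d1 h
      rwa [Int.natAbs_natCast] at h5
    · refine le_max_of_le_right ?_
      have h5 := Int.natAbs_le_of_dvd_ne_zero d2 h
      rwa [Int.natAbs_natCast] at h5
  set a : ℝ := (j : ℝ) / (2 * (L : ℝ) + 1) ^ 2 with ha
  have ha0 : 0 ≤ a := by positivity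
  -- the event splits
  have hev : {ω | u < W μ L N 0 (env X ω)} ⊆
      (⋃ r ∈ t, {ω | a ≤ ((bad μ L n g (env X ω) ((Rb ρ).filter (fun b => cls b = r))).card : ℝ)}) ∪
      ⋃ b ∈ Rb ρ, {ω | u / (4 * j) < W μ L n b (env X ω)} := by
    intro ω hω
    rcases det_step hD hc hn hj hg0 hg hu hK hρ (env X ω) hω with h | ⟨b, hb, h⟩
    · left
      have hcard : t.card • a ≤ ((bad μ L n g (env X ω) (Rb ρ)).card : ℝ) := by
        rw [htc, nsmul_eq_mul, ha]
        push_cast
        rw [hMr]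
        have h1 : (2 * (L : ℝ) + 1) ^ 2 * ((j : ℝ) / (2 * (L : ℝ) + 1) ^ 2) = j := by
          field_simp
        rw [h1]
        exact_mod_cast h
      have hne : t.Nonempty := ⟨cls 0, hmaps 0⟩
      obtain ⟨r, hr, hle⟩ := Finset.exists_le_card_fiber_of_nsmul_le_card_of_maps_to
        (s := bad μ L n g (env X ω) (Rb ρ)) (t := t) (f := cls) (fun b _ => hmaps b) hne hcard
      refine mem_iUnion₂.mpr ⟨r, hr, ?_⟩
      show a ≤ ((bad μ L n g (env X ω) ((Rb ρ).filter (fun b => cls b = r))).card : ℝ)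
      refine hle.trans ?_
      have : (bad μ L n g (env X ω) (Rb ρ)).filter (fun b => cls b = r) ⊆
          bad μ L n g (env X ω) ((Rb ρ).filter (fun b => cls b = r)) := by
        intro b hb
        rw [Finset.mem_filter, mem_bad] at hb
        rw [mem_bad, Finset.mem_filter]
        exact ⟨⟨hb.1.1, hb.2⟩, hb.1.2⟩
      exact_mod_cast Finset.card_le_card this
    · right
      exact mem_iUnion₂.mpr ⟨b, hb, h⟩
  have hG1 : G X μ L N u ≤
      (∑ r ∈ t, (volume : Measure Ω).real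
        {ω | a ≤ ((bad μ L n g (env X ω) ((Rb ρ).filter (fun b => cls b = r))).card : ℝ)}) +
      ∑ b ∈ Rb ρ, (volume : Measure Ω).real {ω | u / (4 * j) < W μ L n b (env X ω)} := by
    unfold G
    refine (measureReal_mono hev).trans ((measureReal_union_le _ _).trans ?_)
    exact add_le_add (measureReal_biUnion_finset_le _ _) (measureReal_biUnion_finset_le _ _)
  have hS1 : (∑ r ∈ t, (volume : Measure Ω).real
        {ω | a ≤ ((bad μ L n g (env X ω) ((Rb ρ).filter (fun b => cls b = r))).card : ℝ)}) ≤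
      3 * (2 * (L : ℝ) + 1) ^ 2 * ((2 * (ρ : ℝ) + 1) ^ 2 * p) ^ a := by
    have h1 : ∀ r ∈ t, (volume : Measure Ω).real
        {ω | a ≤ ((bad μ L n g (env X ω) ((Rb ρ).filter (fun b => cls b = r))).card : ℝ)} ≤
        3 * ((Q : ℝ) * p) ^ a := by
      intro r _
      refine markov hM hI hX hc hn hp hQ1 hG (by rw [hQr]; exact hρp) ?_ (hsep r) ha0
      exact (Finset.card_filter_le _ _).trans (by rw [card_Rb])
    refine (Finset.sum_le_card_nsmul _ _ _ h1).trans ?_
    rw [htc, nsmul_eq_mul, hQr]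
    push_cast
    rw [hMr]
    apply le_of_eq
    ring
  have hS2 : ∑ b ∈ Rb ρ, (volume : Measure Ω).real {ω | u / (4 * j) < W μ L n b (env X ω)} =
      (2 * (ρ : ℝ) + 1) ^ 2 * G X μ L n (u / (4 * j)) := by
    have h1 : ∀ b ∈ Rb ρ, (volume : Measure Ω).real {ω | u / (4 * j) < W μ L n b (env X ω)} =
        G X μ L n (u / (4 * j)) := by
      intro b _
      unfold G Measure.real
      rw [stat hM hI hX hc hn b]
    rw [Finset.sum_congr rfl h1, Finset.sum_const, card_Rb, nsmul_eq_mul]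
    push_cast
    ring
  rw [hS2] at hG1
  linarith

end Pool.Agent.Run7.h704.OH
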